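import Mathlib

/-!
# The largest sum-free subset of `{1, ..., 5p - 1}` with least element `p`

The set `[p, 2p-1] ∪ [4p, 5p-1]` is sum-free, and no sum-free set with least element `p` is larger, because `x` and
`x + p` are never both members.
-/

set_option autoImplicit false

namespace Pool.Agent.Results.MP_6f69d0_co.OneFifth

/-- Sum-free, with `x = y` allowed. -/
def SumFree (S : Finset ℕ) : Prop := ∀ x ∈ S, ∀ y ∈ S, x + y ∉ S

/-- The largest size of a sum-free subset of `{1, ..., n}` with least element `p`. -/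
noncomputable def g (n p : ℕ) : ℕ :=
  sSup {c | ∃ S : Finset ℕ, S ⊆ Finset.Icc 1 n ∧ SumFree S ∧ p ∈ S ∧ (∀ x ∈ S, p ≤ x) ∧ S.card = c}

theorem upper (p : ℕ) (hp : 1 ≤ p) (S : Finset ℕ) (hS : S ⊆ Finset.Icc 1 (5 * p - 1)) (hf : SumFree S)
    (hpS : p ∈ S) (hmin : ∀ x ∈ S, p ≤ x) : S.card ≤ 2 * p := by
  let φ : ℕ → ℕ := fun x => if x < 2 * p then x else if x < 3 * p then x - p else if x < 4 * p then x else x - p
  have h1 : S.card ≤ (Finset.Ico p (2 * p) ∪ Finset.Ico (3 * p) (4 * p)).card := by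
    apply Finset.card_le_card_of_injOn φ
    · intro x hx
      have h2 := Finset.mem_Icc.1 (hS hx)
      have h3 := hmin x hx
      simp only [Finset.coe_union, Finset.coe_Ico, Set.mem_union, Set.mem_Ico, φ]
      split_ifs <;> omega
    · intro x hx y hy hxy
      have h2 := Finset.mem_Icc.1 (hS hx)
      have h3 := hmin x hx
      have h4 := Finset.mem_Icc.1 (hS hy)
      have h5 := hmin y hy
      have hn1 : y ≠ x + p := fun h => hf x hx p hpS (h ▸ hy)
      have hn2 : x ≠ y + p := fun h => hf y hy p hpS (h ▸ hx)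
      simp only [φ] at hxy
      split_ifs at hxy <;> omega
  refine h1.trans ((Finset.card_union_le _ _).trans ?_)
  rw [Nat.card_Ico, Nat.card_Ico]
  omega

theorem lower (p : ℕ) (hp : 1 ≤ p) : ∃ S : Finset ℕ, S ⊆ Finset.Icc 1 (5 * p - 1) ∧ SumFree S ∧ p ∈ S ∧
    (∀ x ∈ S, p ≤ x) ∧ S.card = 2 * p := by
  refine ⟨Finset.Ico p (2 * p) ∪ Finset.Ico (4 * p) (5 * p), ?_, ?_, ?_, ?_, ?_⟩
  · intro x hx
    rw [Finset.mem_union, Finset.mem_Ico, Finset.mem_Ico] at hx
    rw [Finset.mem_Icc]
    omega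
  · intro x hx y hy h
    rw [Finset.mem_union, Finset.mem_Ico, Finset.mem_Ico] at hx hy h
    omega
  · rw [Finset.mem_union, Finset.mem_Ico, Finset.mem_Ico]
    omega
  · intro x hx
    rw [Finset.mem_union, Finset.mem_Ico, Finset.mem_Ico] at hx
    omega
  · rw [Finset.card_union_of_disjoint, Nat.card_Ico, Nat.card_Ico]
    · omega
    · rw [Finset.disjoint_left]
      intro x h1 h2
      rw [Finset.mem_Ico] at h1 h2
      omega

/-- For every `p >= 1`, the largest sum-free subset of `{1, ..., 5p - 1}` with least element `p` has `2p` elements. -/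
theorem result (p : ℕ) (hp : 1 ≤ p) : g (5 * p - 1) p = 2 * p := by
  unfold g
  apply IsGreatest.csSup_eq
  refine ⟨lower p hp, ?_⟩
  rintro c ⟨S, h1, h2, h3, h4, rfl⟩
  exact upper p hp S h1 h2 h3 h4

end Pool.Agent.Results.MP_6f69d0_co.OneFifth
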